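import Mathlib
import Pool.Agent.TH639.LS.Dir

/-!
# Polynomials with coefficients of generic logarithmic size are hyperbolic

For every degree and every support: in almost every direction of the space of the logarithms of the
moduli of the coefficients, all the polynomials far enough in this direction are hyperbolic, whatever
the arguments of the coefficients are. If the logarithms of the moduli are random with an absolutely
continuous law and are scaled by a factor `t`, then the probability that all the polynomials with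
these moduli of the coefficients are hyperbolic tends to one as `t → ∞`.
-/

set_option autoImplicit false

open Polynomial Filter Topology MeasureTheory

namespace Pool.Agent.Results.MP_28f8a1_an.GenericLogarithmicScales

/-- The polynomial as a self-map of the plane. -/
def map (T : ℂ[X]) : ℂ → ℂ := fun w : ℂ => T.eval w

/-- The orbit of `z` escapes to infinity. -/
def Escapes (T : ℂ[X]) (z : ℂ) : Prop :=
  Tendsto (fun k : ℕ => ‖(map T)^[k] z‖) atTop atTop

/-- The orbit of `z` is attracted by a sink (attracting periodic point) of `T`. -/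
def Attracted (T : ℂ[X]) (z : ℂ) : Prop :=
  ∃ n : ℕ, 0 < n ∧ ∃ x : ℂ, (map T)^[n] x = x ∧ ‖deriv ((map T)^[n]) x‖ < 1 ∧
    Tendsto (fun k : ℕ => (map T)^[n * k] z) atTop (𝓝 x)

/-- `T` is hyperbolic: every critical point escapes or is attracted by a sink. -/
def Hyperbolic (T : ℂ[X]) : Prop :=
  ∀ c : ℂ, (derivative T).eval c = 0 → Escapes T c ∨ Attracted T c

/-- The orbit of every critical point escapes or converges to an attracting FIXED point. -/
def AllToFixed (T : ℂ[X]) : Prop :=
  ∀ c : ℂ, (derivative T).eval c = 0 → Escapes T c ∨ ∃ x : ℂ, T.eval x = x ∧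
    ‖(derivative T).eval x‖ < 1 ∧ Tendsto (fun k : ℕ => (map T)^[k] c) atTop (𝓝 x)

/-- The polynomial with support in `I` and the coefficients `a`. -/
noncomputable def poly {I : Finset ℕ} (a : I → ℂ) : ℂ[X] := ∑ i : I, C (a i) * X ^ (i : ℕ)

theorem hyperbolic_of {T : ℂ[X]} (hT : Pool.Agent.W751.CD.Hyp T) :
    Hyperbolic T ∧ AllToFixed T := by
  constructor
  · intro c hc
    rcases hT c hc with h | ⟨x, h1, h2, h3⟩
    · exact Or.inl h
    · refine Or.inr ⟨1, one_pos, x, h1, ?_, ?_⟩
      · rw [Function.iterate_one]; exact h2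
      · simp only [one_mul]; exact h3
  · intro c hc
    rcases hT c hc with h | ⟨x, h1, h2, h3⟩
    · exact Or.inl h
    · refine Or.inr ⟨x, h1, ?_, h3⟩
      have : deriv (fun y : ℂ => T.eval y) x = (derivative T).eval x := Polynomial.deriv _
      rw [← this]; exact h2

theorem generic (I : Finset ℕ) (hI : ∃ n ∈ I, 2 ≤ n) :
    ∀ᵐ α : I → ℝ, ∃ δ : ℝ, 0 < δ ∧ ∃ t₀ : ℝ, ∀ t : ℝ, t₀ ≤ t → ∀ a : I → ℂ,
      (∀ i, a i ≠ 0) → (∀ i, |Real.log ‖a i‖ - t * α i| ≤ δ * t) →
        Pool.Agent.W751.CD.Hyp (poly a) := by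
  obtain ⟨n₀, hn₀, hn2⟩ := hI
  have hnonempty : Nonempty I := ⟨⟨n₀, hn₀⟩⟩
  have hne : I.Nonempty := ⟨n₀, hn₀⟩
  have hinj : Function.Injective (fun i : I => (i : ℕ)) := Subtype.val_injective
  filter_upwards [Pool.Agent.TH639.LS.ae_gen hinj] with α hα
  refine Pool.Agent.TH639.LS.dir (d := ⟨I.max' hne, I.max'_mem hne⟩) hinj hα
    (hn2.trans (I.le_max' _ hn₀)) fun k hk => ?_
  exact lt_of_le_of_ne (I.le_max' _ k.2) (fun h => hk (hinj h))

/-- Let `I` be a finite set of exponents, one of them at least two (for instance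
`I = {0, 1, …, d}`, `d ≥ 2`).

(1) For Lebesgue almost every direction `α ∈ ℝ ^ I` there are `δ > 0` and `t₀` such that for all
`t ≥ t₀` EVERY polynomial `∑ a i z ^ i` whose coefficients satisfy `|log |a i| - t α i| ≤ δ t` for all
`i ∈ I` is hyperbolic, and each of its critical points escapes or converges to an attracting fixed
point.

(2) Let `μ` be a finite measure on `ℝ ^ I` which is absolutely continuous with respect to Lebesgue
measure. Then the `μ`-measure of the set of the `α` for which there is a non-hyperbolic polynomial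
`∑ a i z ^ i` with `log |a i| = t α i` for all `i ∈ I`, tends to zero as `t → ∞`. -/
theorem result (I : Finset ℕ) (hI : ∃ n ∈ I, 2 ≤ n) :
    (∀ᵐ α : I → ℝ, ∃ δ : ℝ, 0 < δ ∧ ∃ t₀ : ℝ, ∀ t : ℝ, t₀ ≤ t → ∀ a : I → ℂ,
      (∀ i, a i ≠ 0) → (∀ i, |Real.log ‖a i‖ - t * α i| ≤ δ * t) →
        Hyperbolic (poly a) ∧ AllToFixed (poly a)) ∧
    (∀ μ : Measure (I → ℝ), IsFiniteMeasure μ → μ ≪ volume →
      Tendsto (fun t : ℝ => μ {α : I → ℝ | ∃ a : I → ℂ,
        (∀ i, a i ≠ 0 ∧ Real.log ‖a i‖ = t * α i) ∧ ¬ Hyperbolic (poly a)}) atTop (𝓝 0)) := by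
  have hgen := generic I hI
  constructor
  · filter_upwards [hgen] with α hα
    obtain ⟨δ, hδ, t₀, h⟩ := hα
    exact ⟨δ, hδ, t₀, fun t ht a h0 h1 => hyperbolic_of (h t ht a h0 h1)⟩
  · intro μ hfin hμ
    set B : ℝ → Set (I → ℝ) := fun t => {α : I → ℝ | ∃ a : I → ℂ,
        (∀ i, a i ≠ 0 ∧ Real.log ‖a i‖ = t * α i) ∧ ¬ Hyperbolic (poly a)} with hB
    set G : ℕ → Set (I → ℝ) := fun n => interior {α | ∀ t : ℝ, (n : ℝ) ≤ t → α ∉ B t} with hG
    have hGm : Monotone G := by
      intro m n hmn
      apply interior_mono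
      intro α hα t ht
      exact hα t (le_trans (by exact_mod_cast hmn) ht)
    have hcov : ∀ᵐ α : I → ℝ, ∃ n, α ∈ G n := by
      filter_upwards [hgen] with α hα
      obtain ⟨δ, hδ, t₀, h⟩ := hα
      obtain ⟨n, hn⟩ := exists_nat_ge (max t₀ 1)
      refine ⟨n, ?_⟩
      rw [hG, mem_interior_iff_mem_nhds]
      filter_upwards [Metric.closedBall_mem_nhds α hδ] with β hβ t ht hcon
      obtain ⟨a, ha, hnot⟩ := hcon
      have ht1 : t₀ ≤ t := (le_max_left _ _).trans (hn.trans ht)
      have ht0 : 0 < t := lt_of_lt_of_le one_pos ((le_max_right _ _).trans (hn.trans ht))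
      apply hnot
      refine (hyperbolic_of (h t ht1 a (fun i => (ha i).1) fun i => ?_)).1
      rw [(ha i).2, ← mul_sub, abs_mul, abs_of_pos ht0, mul_comm]
      rw [Metric.mem_closedBall, dist_pi_le_iff hδ.le] at hβ
      exact mul_le_mul_of_nonneg_right (hβ i) ht0.le
    have hzero : μ (⋂ n, (G n)ᶜ) = 0 := by
      apply hμ
      rw [ae_iff] at hcov
      convert hcov using 2
      ext α
      simp
    have hlim : Tendsto (fun n => μ (G n)ᶜ) atTop (𝓝 0) := by
      rw [← hzero]
      apply tendsto_measure_iInter_atTop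
      · intro n
        exact isOpen_interior.measurableSet.compl.nullMeasurableSet
      · intro m n hmn
        exact Set.compl_subset_compl.2 (hGm hmn)
      · exact ⟨0, measure_ne_top _ _⟩
    rw [ENNReal.tendsto_nhds_zero] at hlim ⊢
    intro ε hε
    obtain ⟨n, hn⟩ := (hlim ε hε).exists
    filter_upwards [eventually_ge_atTop (n : ℝ)] with t ht
    refine (measure_mono ?_).trans hn
    intro α hα hαG
    exact (interior_subset hαG) t ht hα

end Pool.Agent.Results.MP_28f8a1_an.GenericLogarithmicScales
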