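import Mathlib
import Pool.Agent.TH339.KE.Cor

/-!
# Random polynomials with independent coefficients of Kostlan's size are hyperbolic

`T = ∑ √(N choose k) ξ k z ^ k` with independent complex random variables `ξ 0, …, ξ N` whose laws
have densities at most `D` and second moments at most `W`: all the critical points of `T` escape
outside an event of probability at most `2 · 10 ^ 7 · D · log (N D W) ^ 2 / N`.
-/

set_option autoImplicit false

open Polynomial Filter Topology MeasureTheory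

namespace Pool.Agent.Results.MP_28f8a1_an.IndependentCoefficients

/-- The polynomial as a self-map of the plane. -/
def map (T : ℂ[X]) : ℂ → ℂ := fun w : ℂ => T.eval w

/-- The orbit of `z` escapes to infinity. -/
def Escapes (T : ℂ[X]) (z : ℂ) : Prop :=
  Tendsto (fun k : ℕ => ‖(map T)^[k] z‖) atTop atTop

/-- `T` is a polynomial of degree `N` all of whose critical points escape (in particular `T` is
hyperbolic). -/
def AllEscape (N : ℕ) (T : ℂ[X]) : Prop :=
  T.natDegree = N ∧ ∀ c : ℂ, (derivative T).eval c = 0 → Escapes T c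

/-- The polynomial `∑ √(N choose k) x k z ^ k`. -/
noncomputable def poly (N : ℕ) (x : Fin (N + 1) → ℂ) : ℂ[X] :=
  ∑ k : Fin (N + 1), C ((√((N.choose k : ℕ) : ℝ) : ℝ) * x k) * X ^ (k : ℕ)

/-- The standard complex Gaussian measure, with the density `exp (-|w| ^ 2) / π`. -/
noncomputable def gaussian : Measure ℂ :=
  volume.withDensity fun w => ENNReal.ofReal (Real.exp (-‖w‖ ^ 2) / Real.pi)

theorem main (N : ℕ) (D W : ℝ) (μ : Fin (N + 1) → Measure ℂ) (hN : 2 ≤ N) (hD : 1 ≤ D)
    (hW : 1 ≤ W) (hP : ∀ k, IsProbabilityMeasure (μ k))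
    (hμ : ∀ (k : Fin (N + 1)) (B : Set ℂ), μ k B ≤ ENNReal.ofReal D * volume B)
    (hμW : ∀ k, ∫⁻ w, ENNReal.ofReal (‖w‖ ^ 2) ∂(μ k) ≤ ENNReal.ofReal W) :
    Measure.pi μ {x | ¬ AllEscape N (poly N x)} ≤
      ENNReal.ofReal (2 * 10 ^ 7 * D * Real.log (N * D * W) ^ 2 / N) := by
  have h1 := Pool.Agent.TH339.KE.main N hN μ D W hD hW hμ hμW
  have h0 : Measure.pi μ {x : Fin (N + 1) → ℂ | x (Fin.last N) ∈ ({0} : Set ℂ)} = 0 := by
    apply Measure.pi_eval_preimage_null μ
    have h3 := hμ (Fin.last N) {0}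
    have hv : (volume : Measure ℂ) {0} = 0 := measure_singleton 0
    rw [hv, mul_zero] at h3
    exact le_antisymm h3 zero_le
  have hsub : {x | ¬ AllEscape N (poly N x)} ⊆
      {x | ¬ ∀ c : ℂ, (derivative (Pool.Agent.TH339.KE.P N x)).eval c = 0 →
        Tendsto (fun k : ℕ => ‖(fun w => (Pool.Agent.TH339.KE.P N x).eval w)^[k] c‖)
          atTop atTop} ∪ {x : Fin (N + 1) → ℂ | x (Fin.last N) ∈ ({0} : Set ℂ)} := by
    intro x hx
    by_contra hcon
    simp only [Set.mem_union, Set.mem_ofPred_eq, Set.mem_singleton_iff, not_or, not_not] at hcon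
    exact hx ⟨Pool.Agent.TH339.KE.natDegree_P hcon.2, hcon.1⟩
  refine (measure_mono hsub).trans ((measure_union_le _ _).trans ?_)
  rw [h0, add_zero]
  exact h1

/-- (1) Let `ξ 0, …, ξ N` be independent complex random variables, `N ≥ 2`, whose laws `μ k` have
densities at most `D` and second moments at most `W`. Then, outside an event of probability at most
`2 · 10 ^ 7 · D · log (N D W) ^ 2 / N`, the polynomial `∑ √(N choose k) ξ k z ^ k` has degree `N` and
all its critical points escape.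
(2) In particular this holds outside an event of probability `2 · 10 ^ 7 · log (N) ^ 2 / N` if the
`ξ k` are independent standard complex Gaussian variables (Kostlan's ensemble).
(3) Let `A ≥ 1` and `9000 log (N A) / √N ≤ ε ≤ 1`. For every polynomial `∑ √(N choose k) c k z ^ k`
with `|c k| ≤ A` for all `k` there is a polynomial `∑ √(N choose k) y k z ^ k` of degree `N`, with
`|y k - c k| ≤ ε` for all `k`, all of whose critical points escape. -/
theorem result :
    (∀ (N : ℕ) (D W : ℝ) (μ : Fin (N + 1) → Measure ℂ), 2 ≤ N → 1 ≤ D → 1 ≤ W →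
      (∀ k, IsProbabilityMeasure (μ k)) →
      (∀ (k : Fin (N + 1)) (B : Set ℂ), μ k B ≤ ENNReal.ofReal D * volume B) →
      (∀ k, ∫⁻ w, ENNReal.ofReal (‖w‖ ^ 2) ∂(μ k) ≤ ENNReal.ofReal W) →
      Measure.pi μ {x | ¬ AllEscape N (poly N x)} ≤
        ENNReal.ofReal (2 * 10 ^ 7 * D * Real.log (N * D * W) ^ 2 / N)) ∧
    (IsProbabilityMeasure gaussian ∧ ∀ N : ℕ, 2 ≤ N →
      Measure.pi (fun _ : Fin (N + 1) => gaussian) {x | ¬ AllEscape N (poly N x)} ≤
        ENNReal.ofReal (2 * 10 ^ 7 * Real.log N ^ 2 / N)) ∧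
    (∀ (N : ℕ) (A ε : ℝ), 2 ≤ N → 1 ≤ A → ε ≤ 1 → 9000 * Real.log (N * A) / √N ≤ ε →
      ∀ c : Fin (N + 1) → ℂ, (∀ k, ‖c k‖ ≤ A) →
        ∃ y : Fin (N + 1) → ℂ, (∀ k, ‖y k - c k‖ ≤ ε) ∧ AllEscape N (poly N y)) := by
  refine ⟨main, ⟨Pool.Agent.TH339.KE.gauss_prob, fun N hN => ?_⟩, fun N A ε hN hA hε hεN c hc => ?_⟩
  · have h := main N 1 1 (fun _ => gaussian) hN le_rfl le_rfl
      (fun _ => Pool.Agent.TH339.KE.gauss_prob) (fun _ => Pool.Agent.TH339.KE.gauss_dens)
      (fun _ => Pool.Agent.TH339.KE.gauss_mom)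
    simpa only [mul_one] using h
  · obtain ⟨y, h1, h2, h3⟩ := Pool.Agent.TH339.KE.coarse N hN A ε hA hε hεN c hc
    exact ⟨y, h1, h2, h3⟩

end Pool.Agent.Results.MP_28f8a1_an.IndependentCoefficients
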