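import Mathlib
import Pool.Agent.TH270.LC.Main
import Pool.Agent.TH270.LC.PolyFam
import Pool.Agent.TH270.LC.Seq

/-!
# Long compositions of polynomials are hyperbolic after small translations of their factors
-/

set_option autoImplicit false

open Polynomial Filter Topology MeasureTheory

namespace Pool.Agent.Results.MP_28f8a1_an.LongCompositions

/-- The polynomial as a self-map of the plane. -/
def map (T : ℂ[X]) : ℂ → ℂ := fun w : ℂ => T.eval w

/-- The orbit of `z` escapes to infinity. -/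
def Escapes (T : ℂ[X]) (z : ℂ) : Prop :=
  Tendsto (fun k : ℕ => ‖(map T)^[k] z‖) atTop atTop

/-- The point `x` is a sink (an attracting periodic point) of `T`, which attracts the orbit
of `z`. -/
def AttractedBy (T : ℂ[X]) (z x : ℂ) : Prop :=
  ∃ n : ℕ, 0 < n ∧ (map T)^[n] x = x ∧ ‖deriv ((map T)^[n]) x‖ < 1 ∧
    Tendsto (fun k : ℕ => (map T)^[n * k] z) atTop (𝓝 x)

/-- `T` is hyperbolic, and at most `K` sinks attract all its nonescaping critical points. -/
def HyperbolicWith (K : ℕ) (T : ℂ[X]) : Prop :=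
  ∃ Z : Finset ℂ, Z.card ≤ K ∧
    ∀ c : ℂ, (derivative T).eval c = 0 → Escapes T c ∨ ∃ x ∈ Z, AttractedBy T c x

/-- `T` has degree `d`, coefficients of modulus at most `A` and a leading coefficient of modulus at
least `1 / A`. These sets exhaust the polynomials of degree `d` as `A` grows. -/
def Bounded (d : ℕ) (A : ℝ) (T : ℂ[X]) : Prop :=
  T.natDegree = d ∧ (∀ i, ‖T.coeff i‖ ≤ A) ∧ 1 / A ≤ ‖T.leadingCoeff‖

/-- The composition `(T (m - 1) + s (m - 1)) ∘ ⋯ ∘ (T 1 + s 1) ∘ (T 0 + s 0)`. -/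
noncomputable def comp (T : ℕ → ℂ[X]) (s : ℕ → ℂ) : ℕ → ℂ[X]
  | 0 => X
  | m + 1 => (T m + C (s m)).comp (comp T s m)

/-- The uniform probability distribution on the disc `|z| ≤ ε`. -/
noncomputable def unif (ε : ℝ) : Measure ℂ :=
  (volume (Metric.closedBall (0 : ℂ) ε))⁻¹ • volume.restrict (Metric.closedBall (0 : ℂ) ε)

/-- The coefficients of a polynomial of degree `d`. -/
def coeffs (d : ℕ) (T : ℂ[X]) : Fin (d + 1) → ℂ := fun k => T.coeff k

theorem coeffs_mem {d : ℕ} {A : ℝ} {T : ℂ[X]} (h : Bounded d A T) :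
    (∀ k, ‖coeffs d T k‖ ≤ A) ∧ 1 / A ≤ ‖coeffs d T (Fin.last d)‖ := by
  refine ⟨fun k => h.2.1 _, ?_⟩
  have h1 : coeffs d T (Fin.last d) = T.leadingCoeff := by
    unfold coeffs
    rw [Fin.val_last, leadingCoeff, h.1]
  rw [h1]
  exact h.2.2

theorem eval_coeffs {d : ℕ} {T : ℂ[X]} (h : T.natDegree = d) (z : ℂ) :
    ∑ k, coeffs d T k * z ^ (k : ℕ) = T.eval z := by
  rw [eval_eq_sum_range' (n := d + 1) (by omega) z]
  unfold coeffs
  exact Fin.sum_univ_eq_sum_range (fun k => T.coeff k * z ^ k) (d + 1)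

open Pool.Agent.TH270.LC in
theorem hyperbolic_of {K : ℕ} {T : ℂ[X]} (h : HypK (map T) K) : HyperbolicWith K T := by
  obtain ⟨Z, hZ, h⟩ := h
  refine ⟨Z, hZ, fun c hc => ?_⟩
  have h1 : deriv (map T) c = 0 := by
    have : deriv (map T) c = (derivative T).eval c := Polynomial.deriv T
    rw [this, hc]
  rcases h c h1 with h | ⟨x, hx, n, hn, h2, h3, h4⟩
  · exact Or.inl h
  · exact Or.inr ⟨x, hx, n, hn, h2, h3, h4⟩

theorem hyperbolic_X (K : ℕ) : HyperbolicWith K (X : ℂ[X]) :=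
  ⟨∅, by simp, fun c hc => by simp at hc⟩

open Pool.Agent.TH270.LC in
/-- The bound in terms of the product of the uniform distributions. -/
theorem bound (d : ℕ) (hd : 2 ≤ d) (A ε : ℝ) (hA : 1 ≤ A) (hε : 0 < ε) :
    ∃ (K : ℕ) (c κ : ℝ), 0 < c ∧ 0 < κ ∧ κ < 1 ∧
      ∀ T : ℕ → ℂ[X], (∀ i, Bounded d A (T i)) → ∀ m : ℕ,
        nuPi ε m {v | ¬ HyperbolicWith K (comp T (ext v) m)} ≤ ENNReal.ofReal (c * κ ^ m) := by
  obtain ⟨F, hF1, hF2⟩ := poly_fam d hd A ε hA hε
  have hcpt := poly_compact d A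
  have hA0 : 0 < A := by linarith
  obtain ⟨K, c, κ, hc, hκ, hκ1, hmain⟩ := main_fam F (d - 1) fun a => by
    have h1 : a.1 (Fin.last d) ≠ 0 := by
      intro h
      have h2 := a.2.2
      rw [h, norm_zero] at h2
      have : 0 < 1 / A := by positivity
      linarith
    obtain ⟨S, hS1, hS2⟩ := poly_crit d (by omega) a.1 h1
    refine ⟨S, hS1, fun z hz => hS2 z ?_⟩
    have h3 : F.f a = fun z : ℂ => ∑ k, a.1 k * z ^ (k : ℕ) := funext fun z => hF2 a z
    rw [← h3]
    exact hz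
  refine ⟨K, c / κ, κ, by positivity, hκ, hκ1, fun T hT m => ?_⟩
  rcases m with _ | n
  · have : {v : Fin 0 → ℂ | ¬ HyperbolicWith K (comp T (ext v) 0)} = ∅ := by
      ext v
      simp only [Set.mem_ofPred_eq, Set.mem_empty_iff_false, iff_false, not_not]
      exact hyperbolic_X K
    rw [this, measure_empty]
    exact zero_le
  · set e : ℕ → {a : Fin (d + 1) → ℂ // (∀ k, ‖a k‖ ≤ A) ∧ 1 / A ≤ ‖a (Fin.last d)‖} :=
      fun i => ⟨coeffs d (T i), coeffs_mem (hT i)⟩ with he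
    have hpos : ∀ (u : ℕ → ℂ) (z : ℂ) (k : ℕ), pos F e u z k = map (comp T u k) z := by
      intro u z k
      induction k with
      | zero => simp [pos, comp, map]
      | succ k ih =>
        rw [pos_succ, ih, hF2]
        simp only [he, map, comp, eval_comp, eval_add, eval_C]
        rw [eval_coeffs (hT k).1]
    have h1 := hmain n e
    rw [hF1] at h1
    have h2 : {v : Fin (n + 1) → ℂ | ¬ HyperbolicWith K (comp T (ext v) (n + 1))} ⊆
        {v | ¬ HypK (fun z => pos F e (ext v) z (n + 1)) K} := by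
      intro v hv hv'
      refine hv (hyperbolic_of ?_)
      have h3 : (fun z => pos F e (ext v) z (n + 1)) = map (comp T (ext v) (n + 1)) :=
        funext fun z => hpos _ _ _
      rw [← h3]
      exact hv'
    refine (measure_mono h2).trans (h1.trans (le_of_eq ?_))
    congr 1
    rw [pow_succ]
    field_simp

theorem comp_congr (T : ℕ → ℂ[X]) {s s' : ℕ → ℂ} (m : ℕ) (h : ∀ j < m, s j = s' j) :
    comp T s m = comp T s' m := by
  induction m with
  | zero => rfl
  | succ m ih =>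
    simp only [comp]
    rw [ih fun j hj => h j (by omega), h m (by omega)]

/-- Long compositions. For every degree `d ≥ 2`, every bound `A` and every `ε > 0` there are
constants `K`, `c` and `κ < 1` such that, for all sequences `T 0, T 1, ...` of polynomials of degree
`d` bounded by `A` and all `m`:

(1) the proportion, in the polydisc of the `(s 0, ..., s (m - 1))` with `|s i| ≤ ε`, of those for
which the composition `(T (m - 1) + s (m - 1)) ∘ ⋯ ∘ (T 0 + s 0)` is not hyperbolic with at most `K`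
sinks is at most `c κ ^ m`;

(2) there is `M`, which does not depend on the sequence `T`, such that for all sequences `T` there
are translations `s i` with `|s i| ≤ ε` for which all the compositions
`(T (m - 1) + s (m - 1)) ∘ ⋯ ∘ (T 0 + s 0)` with `m ≥ M` are hyperbolic with at most `K` sinks;

(3) if the `s i` are chosen independently and uniformly in the disc, then almost surely these
compositions are hyperbolic with at most `K` sinks for all large `m`. -/
theorem result (d : ℕ) (hd : 2 ≤ d) (A ε : ℝ) (hA : 1 ≤ A) (hε : 0 < ε) :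
    ∃ (K : ℕ) (c κ : ℝ), 0 < c ∧ 0 < κ ∧ κ < 1 ∧
      (∀ T : ℕ → ℂ[X], (∀ i, Bounded d A (T i)) → ∀ m : ℕ,
        volume {s : Fin m → ℂ | (∀ i, ‖s i‖ ≤ ε) ∧
            ¬ HyperbolicWith K (comp T (fun j => if h : j < m then s ⟨j, h⟩ else 0) m)} ≤
          ENNReal.ofReal (c * κ ^ m) * volume {s : Fin m → ℂ | ∀ i, ‖s i‖ ≤ ε}) ∧
      (∃ M : ℕ, ∀ T : ℕ → ℂ[X], (∀ i, Bounded d A (T i)) →
        ∃ s : ℕ → ℂ, (∀ i, ‖s i‖ ≤ ε) ∧ ∀ m, M ≤ m → HyperbolicWith K (comp T s m)) ∧
      (∀ T : ℕ → ℂ[X], (∀ i, Bounded d A (T i)) →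
        ∀ᵐ s ∂(Measure.infinitePi fun _ : ℕ => unif ε),
          ∀ᶠ m in atTop, HyperbolicWith K (comp T s m)) := by
  obtain ⟨K, c, κ, hc, hκ, hκ1, hb⟩ := bound d hd A ε hA hε
  have key : ∀ (T : ℕ → ℂ[X]) (s : ℕ → ℂ) (m : ℕ),
      (fun i : Fin m => s i) ∉ {v : Fin m → ℂ |
        ¬ HyperbolicWith K (comp T (Pool.Agent.TH270.LC.ext v) m)} →
      HyperbolicWith K (comp T s m) := by
    intro T s m h
    have h' : HyperbolicWith K (comp T (Pool.Agent.TH270.LC.ext fun i : Fin m => s i) m) := by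
      by_contra h2
      exact h h2
    rwa [comp_congr T m (s := Pool.Agent.TH270.LC.ext fun i : Fin m => s i) (s' := s)
      (fun j hj => by unfold Pool.Agent.TH270.LC.ext; rw [dif_pos hj])] at h'
  refine ⟨K, c, κ, hc, hκ, hκ1, fun T hT m => ?_, ?_, fun T hT => ?_⟩
  · have h1 := hb T hT m
    rw [Pool.Agent.TH270.LC.nuPi_eq hε] at h1
    have hV : Set.pi Set.univ (fun _ : Fin m => Metric.closedBall (0 : ℂ) ε) =
        {s : Fin m → ℂ | ∀ i, ‖s i‖ ≤ ε} := by
      ext s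
      simp
    rw [hV, Measure.smul_apply, smul_eq_mul] at h1
    have hmeas : MeasurableSet {s : Fin m → ℂ | ∀ i, ‖s i‖ ≤ ε} := by
      rw [← hV]
      exact MeasurableSet.univ_pi fun _ => Metric.isClosed_closedBall.measurableSet
    rw [Measure.restrict_apply' hmeas] at h1
    have hV0 : volume {s : Fin m → ℂ | ∀ i, ‖s i‖ ≤ ε} ≠ 0 := by
      rw [← hV, volume_pi_pi]
      exact Finset.prod_ne_zero_iff.2 fun i _ => (Metric.measure_closedBall_pos _ _ hε).ne'
    have hVt : volume {s : Fin m → ℂ | ∀ i, ‖s i‖ ≤ ε} ≠ ⊤ := by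
      rw [← hV, volume_pi_pi]
      exact ENNReal.prod_ne_top fun i _ => measure_closedBall_lt_top.ne
    have h2 : {s : Fin m → ℂ | (∀ i, ‖s i‖ ≤ ε) ∧
        ¬ HyperbolicWith K (comp T (fun j => if h : j < m then s ⟨j, h⟩ else 0) m)} =
        {v : Fin m → ℂ | ¬ HyperbolicWith K (comp T (Pool.Agent.TH270.LC.ext v) m)} ∩
          {s : Fin m → ℂ | ∀ i, ‖s i‖ ≤ ε} := by
      ext s
      exact and_comm
    rw [h2]
    calc volume ({v : Fin m → ℂ | ¬ HyperbolicWith K (comp T (Pool.Agent.TH270.LC.ext v) m)} ∩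
          {s : Fin m → ℂ | ∀ i, ‖s i‖ ≤ ε})
        = ((volume {s : Fin m → ℂ | ∀ i, ‖s i‖ ≤ ε})⁻¹ *
            volume ({v : Fin m → ℂ | ¬ HyperbolicWith K (comp T (Pool.Agent.TH270.LC.ext v) m)} ∩
              {s : Fin m → ℂ | ∀ i, ‖s i‖ ≤ ε})) * volume {s : Fin m → ℂ | ∀ i, ‖s i‖ ≤ ε} := by
          rw [mul_assoc, mul_comm _ (volume {s : Fin m → ℂ | ∀ i, ‖s i‖ ≤ ε}), ← mul_assoc,
            ENNReal.inv_mul_cancel hV0 hVt, one_mul]
      _ ≤ _ := by gcongr
  · obtain ⟨M, hM⟩ := Pool.Agent.TH270.LC.nuSeq_exists hε hc hκ hκ1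
    refine ⟨M, fun T hT => ?_⟩
    obtain ⟨s, hs1, hs2⟩ := hM _ (hb T hT)
    exact ⟨s, hs1, fun m hm => key T s m (hs2 m hm)⟩
  · have h1 := Pool.Agent.TH270.LC.nuSeq_bc hε hκ hκ1 _ (hb T hT)
    have h2 : Pool.Agent.TH270.LC.nuSeq ε = Measure.infinitePi fun _ : ℕ => unif ε := rfl
    rw [← h2]
    filter_upwards [h1] with s hs
    filter_upwards [hs] with m hm
    exact key T s m hm

end Pool.Agent.Results.MP_28f8a1_an.LongCompositions
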