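import Mathlib
import Pool.Agent.TH639.UC.Box

/-!
# Uniform coarse density of hyperbolicity in each degree

For each degree `N` the hyperbolic polynomials are coarsely dense, with a constant which depends only
on `N`: every polynomial `T` of degree `N` (with the exception of those which have a simple zero at
`0` and another multiple zero) becomes hyperbolic after multiplication by some `λ` with
`1 ≤ λ ≤ exp (10 ^ 5 * N ^ 6)`. There is no compactness of the set of the `T` here.
-/

set_option autoImplicit false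

open Polynomial Filter Topology MeasureTheory

namespace Pool.Agent.Results.MP_28f8a1_an.UniformCoarseDensity

/-- The polynomial as a self-map of the plane. -/
def map (T : ℂ[X]) : ℂ → ℂ := fun w : ℂ => T.eval w

/-- The orbit of `z` escapes to infinity. -/
def Escapes (T : ℂ[X]) (z : ℂ) : Prop :=
  Tendsto (fun k : ℕ => ‖(map T)^[k] z‖) atTop atTop

/-- The orbit of `z` is attracted by a sink (attracting periodic point) of `T`. -/
def Attracted (T : ℂ[X]) (z : ℂ) : Prop :=
  ∃ n : ℕ, 0 < n ∧ ∃ x : ℂ, (map T)^[n] x = x ∧ ‖deriv ((map T)^[n]) x‖ < 1 ∧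
    Tendsto (fun k : ℕ => (map T)^[n * k] z) atTop (𝓝 x)

/-- `T` is hyperbolic: every critical point escapes or is attracted by a sink. -/
def Hyperbolic (T : ℂ[X]) : Prop :=
  ∀ c : ℂ, (derivative T).eval c = 0 → Escapes T c ∨ Attracted T c

/-- The orbit of every critical point escapes or converges to an attracting FIXED point. -/
def AllToFixed (T : ℂ[X]) : Prop :=
  ∀ c : ℂ, (derivative T).eval c = 0 → Escapes T c ∨ ∃ x : ℂ, T.eval x = x ∧
    ‖(derivative T).eval x‖ < 1 ∧ Tendsto (fun k : ℕ => (map T)^[k] c) atTop (𝓝 x)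

/-- `T` has a simple zero at `0` and another, multiple, zero. -/
def Exceptional (T : ℂ[X]) : Prop :=
  T.eval 0 = 0 ∧ (derivative T).eval 0 ≠ 0 ∧
    ∃ c : ℂ, c ≠ 0 ∧ T.eval c = 0 ∧ (derivative T).eval c = 0

/-- The polynomial with support `I` whose `i`-th coefficient has the modulus `exp (x i)` and the
argument given by the unimodular number `u i`. -/
noncomputable def poly {I : Finset ℕ} (u : I → ℂ) (x : I → ℝ) : ℂ[X] :=
  ∑ i : I, C (((Real.exp (x i) : ℝ) : ℂ) * u i) * X ^ (i : ℕ)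

theorem hyperbolic_of {T : ℂ[X]} (hT : Pool.Agent.W751.CD.Hyp T) :
    Hyperbolic T ∧ AllToFixed T := by
  constructor
  · intro c hc
    rcases hT c hc with h | ⟨x, h1, h2, h3⟩
    · exact Or.inl h
    · refine Or.inr ⟨1, one_pos, x, h1, ?_, ?_⟩
      · rw [Function.iterate_one]; exact h2
      · simp only [one_mul]; exact h3
  · intro c hc
    rcases hT c hc with h | ⟨x, h1, h2, h3⟩
    · exact Or.inl h
    · refine Or.inr ⟨x, h1, ?_, h3⟩
      have : deriv (fun y : ℂ => T.eval y) x = (derivative T).eval x := Polynomial.deriv _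
      rw [← this]; exact h2

theorem converse {T : ℂ[X]} (hT : Exceptional T) {b : ℂ}
    (hb : 1 ≤ ‖b * (derivative T).eval 0‖) : ¬ Hyperbolic (C b * T) := by
  obtain ⟨h0, -, c, -, hc1, hc2⟩ := hT
  intro hyp
  have hcr : (derivative (C b * T)).eval c = 0 := by
    rw [derivative_C_mul, eval_mul, hc2, mul_zero]
  have hf0 : map (C b * T) 0 = 0 := by
    simp only [map, eval_mul, h0, mul_zero]
  have hfc : map (C b * T) c = 0 := by
    simp only [map, eval_mul, hc1, mul_zero]
  have hit : ∀ k : ℕ, 1 ≤ k → (map (C b * T))^[k] c = 0 := by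
    intro k hk
    obtain ⟨j, rfl⟩ : ∃ j, k = j + 1 := ⟨k - 1, by omega⟩
    rw [Function.iterate_succ_apply, hfc]
    exact Function.iterate_fixed hf0 j
  rcases hyp c hcr with h | ⟨n, hn, x, hx1, hx2, hx3⟩
  · have h1 := (h.eventually_gt_atTop 0).and (eventually_ge_atTop 1)
    obtain ⟨k, hk1, hk2⟩ := h1.exists
    rw [hit k hk2, norm_zero] at hk1
    exact lt_irrefl _ hk1
  · have h1 : ∀ᶠ k : ℕ in atTop, (map (C b * T))^[n * k] c = 0 := by
      filter_upwards [eventually_ge_atTop 1] with k hk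
      exact hit _ (Nat.one_le_iff_ne_zero.2 (Nat.mul_ne_zero (by omega) (by omega)))
    have hx : x = 0 := by
      have h2 : Tendsto (fun _ : ℕ => (0 : ℂ)) atTop (𝓝 x) := hx3.congr' h1
      exact tendsto_nhds_unique h2 tendsto_const_nhds
    subst hx
    have h2 : HasDerivAt (map (C b * T)) ((derivative (C b * T)).eval 0) 0 :=
      (C b * T).hasDerivAt 0
    have h3 := (HasDerivAt.iterate 0 h2 hf0 n).deriv
    rw [h3, norm_pow, derivative_C_mul, eval_mul, eval_C] at hx2
    exact absurd hx2 (not_lt.2 (one_le_pow₀ hb))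

/-- Let `N ≥ 2`.
(1) Let `T` be a polynomial of degree `N` which is not exceptional (for instance, `T 0 ≠ 0`), and
`K ≥ 0`. The set of the `s ∈ [0, K]` for which some multiple `λ T` with `|λ| = exp s` is not
hyperbolic has measure at most `1000 N ^ 5 (1 + log (1 + K))`.
(2) For every such `T` there is `t ∈ [0, 10 ^ 5 N ^ 6]` such that `λ T` is hyperbolic for all `λ` with
`|λ| = exp t`.
(3) If `T` has degree `N`, `T 0 ≠ 0` and the quotients of the moduli of the zeros of `T` are at most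
`exp Λ`, then the set of all real `s` for which some multiple `λ T` with `|λ| = exp s` is not
hyperbolic has measure at most `2000 N ^ 6 (1 + log (1 + Λ))`.
(4) Let `I` be a finite set of exponents with maximum `N` and with `0 ∈ I` or `1 ∉ I`. For all
arguments `u i` and all `R > 0`, the proportion of the `x ∈ [-R, R] ^ I` for which the polynomial
`∑ exp (x i) * u i * z ^ i` is not hyperbolic is at most
`2 ^ |I| * 1000 N ^ 5 (1 + log (1 + R)) / R`.
In (1) to (4) hyperbolicity includes that each critical point escapes or converges to an attracting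
fixed point.
(5) The exceptional polynomials have to be excluded: if `T` is exceptional then `λ T` is not
hyperbolic for all `λ` with `|λ T' 0| ≥ 1`. -/
theorem result (N : ℕ) (hN : 2 ≤ N) :
    (∀ T : ℂ[X], T.natDegree = N → ¬ Exceptional T →
      (∀ K : ℝ, 0 ≤ K → volume {s : ℝ | (0 ≤ s ∧ s ≤ K) ∧ ∃ u : ℂ, ‖u‖ = 1 ∧
        ¬ (Hyperbolic (C ((Real.exp s : ℝ) * u) * T) ∧
          AllToFixed (C ((Real.exp s : ℝ) * u) * T))} ≤
        ENNReal.ofReal (1000 * (N : ℝ) ^ 5 * (1 + Real.log (1 + K)))) ∧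
      ∃ t : ℝ, 0 ≤ t ∧ t ≤ 10 ^ 5 * (N : ℝ) ^ 6 ∧ ∀ u : ℂ, ‖u‖ = 1 →
        Hyperbolic (C ((Real.exp t : ℝ) * u) * T) ∧
          AllToFixed (C ((Real.exp t : ℝ) * u) * T)) ∧
    (∀ T : ℂ[X], T.natDegree = N → T.eval 0 ≠ 0 → ∀ Λ : ℝ, 0 ≤ Λ →
      (∀ x y : ℂ, T.eval x = 0 → T.eval y = 0 → ‖x‖ ≤ Real.exp Λ * ‖y‖) →
      volume {s : ℝ | ∃ u : ℂ, ‖u‖ = 1 ∧ ¬ (Hyperbolic (C ((Real.exp s : ℝ) * u) * T) ∧
          AllToFixed (C ((Real.exp s : ℝ) * u) * T))} ≤
        ENNReal.ofReal (2000 * (N : ℝ) ^ 6 * (1 + Real.log (1 + Λ)))) ∧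
    (∀ I : Finset ℕ, N ∈ I → (∀ i ∈ I, i ≤ N) → (0 ∈ I ∨ 1 ∉ I) → ∀ u : I → ℂ,
      (∀ i, ‖u i‖ = 1) → ∀ R : ℝ, 0 < R →
      volume {x : I → ℝ | (∀ i, |x i| ≤ R) ∧
        ¬ (Hyperbolic (poly u x) ∧ AllToFixed (poly u x))} ≤
      ENNReal.ofReal (2 ^ I.card * (1000 * (N : ℝ) ^ 5 * (1 + Real.log (1 + R))) / R) *
        volume {x : I → ℝ | ∀ i, |x i| ≤ R}) ∧
    (∀ T : ℂ[X], Exceptional T → ∀ b : ℂ, 1 ≤ ‖b * (derivative T).eval 0‖ →
      ¬ Hyperbolic (C b * T)) := by
  refine ⟨fun T hT hexc => ⟨fun K hK => ?_, ?_⟩, fun T hT h0 Λ hΛ0 hΛ => ?_, ?_,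
    fun T hT b hb => converse hT hb⟩
  · refine (measure_mono ?_).trans (Pool.Agent.TH639.UC.main_window hN hT hexc hK)
    rintro s ⟨hs, u, hu, hnot⟩
    exact ⟨hs, u, hu, fun h => hnot (hyperbolic_of h)⟩
  · obtain ⟨t, h1, h2, h3⟩ := Pool.Agent.TH639.UC.main_exists hN hT hexc
    exact ⟨t, h1, h2, fun u hu => hyperbolic_of (h3 u hu)⟩
  · refine (measure_mono ?_).trans (Pool.Agent.TH639.UC.main_all hN hT h0 hΛ0 hΛ)
    rintro s ⟨u, hu, hnot⟩
    exact ⟨u, hu, fun h => hnot (hyperbolic_of h)⟩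
  · intro I hNI hmax h01 u hu R hR
    have hne : Nonempty I := ⟨⟨N, hNI⟩⟩
    have hinj : Function.Injective (fun i : I => (i : ℕ)) := Subtype.val_injective
    have hbox := Pool.Agent.TH639.UC.box (e := fun i : I => (i : ℕ)) hinj (d := ⟨N, hNI⟩) hN
      (fun k hk => lt_of_le_of_ne (hmax k k.2) (fun h => hk (hinj h)))
      (by
        rcases h01 with h | h
        · exact Or.inl ⟨⟨0, h⟩, rfl⟩
        · right
          intro i hi
          apply h
          rw [← hi]; exact i.2) hu hR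
    rw [Fintype.card_coe] at hbox
    refine (measure_mono ?_).trans hbox
    rintro x ⟨hx, hnot⟩
    exact ⟨hx, fun h => hnot (hyperbolic_of h)⟩

end Pool.Agent.Results.MP_28f8a1_an.UniformCoarseDensity
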